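import Mathlib
import Pool.Agent.W307.QF.Stm
import Pool.Agent.W342.RK2.LocL
import Pool.Agent.W214.RK2.Desc4

/-!
# Project QF: bound of the rank of the twist by the local count
-/

set_option autoImplicit false

namespace Pool.Agent.W991.QF

open Finset Pool.Agent.W262.RK Pool.Agent.W307.RT Pool.Agent.W307.RS Pool.Agent.W307.QF

variable {J : Type} [Fintype J] [DecidableEq J]

lemma mem_S1 {z y : ℕ} {f : J → ℤ} {j : J} {p : ℕ} (hp : p.Prime) :
    p ∣ S1 z y f j ↔ p ∈ PS z y ∧ (p : ℤ) ∣ f j ∧ ¬ (p : ℤ) ^ 2 ∣ f j := by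
  unfold S1
  rw [prime_dvd_prodS (fun q hq => (mem_PS.1 (mem_filter.1 hq).1).2) hp, mem_filter]

lemma mem_S2 {z y : ℕ} {f : J → ℤ} {j : J} {p : ℕ} (hp : p.Prime) :
    p ∣ S2 z y f j ↔ p ∈ PS z y ∧ (p : ℤ) ^ 2 ∣ f j := by
  unfold S2
  rw [prime_dvd_prodS (fun q hq => (mem_PS.1 (mem_filter.1 hq).1).2) hp, mem_filter]

lemma S2_ne {z y : ℕ} {f : J → ℤ} (j : J) : S2 z y f j ≠ 0 :=
  prod_ne_zero_iff.2 fun p hp => (mem_PS.1 (mem_filter.1 hp).1).2.ne_zero

lemma S1_Tup {z y : ℕ} {f : J → ℤ} (hf : Gd z f) : S1 z y f ∈ Tup J z y := by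
  rw [mem_Tup']
  refine ⟨fun j => ?_, fun i j hij => ?_⟩
  · unfold S1 PP
    exact prod_dvd_prod_of_subset _ _ _ (filter_subset _ _)
  · by_contra hcon
    obtain ⟨p, hp, h1, h2⟩ := Nat.Prime.not_coprime_iff_dvd.1 hcon
    have h3 := (mem_S1 hp).1 h1
    have h4 := (mem_S1 hp).1 h2
    exact hf.2 p hp (mem_PS.1 h3.1).1.1 i j hij ⟨h3.2.1, h4.2.1⟩

/-- the number of the primes outside `S1` -/
lemma bad {a : Fin 3 → ℤ} {f : J → ℤ} {z y X K B : ℕ} (hz : 2 ≤ z) (hf : Gd z f)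
    (ha0 : ∀ k, a k ≠ 0) (ha : ∀ k, (a k).natAbs ≤ z) (hX : 1 ≤ X) (hy : 1 ≤ y)
    (hb : ∀ j, (f j).natAbs ≤ X ^ B) (hK : X < (y + 1) ^ K) :
    ((2 * (a 0 * ∏ j, f j) * (a 1 * ∏ j, f j) * (a 2 * ∏ j, f j)).natAbs.primeFactors.filter
        (fun q => ¬ q ∣ ∏ j, S1 z y f j)).card ≤
      z + Fintype.card J * (B * K) + ∑ j, (S2 z y f j).primeFactors.card := by
  have hsub : ((2 * (a 0 * ∏ j, f j) * (a 1 * ∏ j, f j) *
      (a 2 * ∏ j, f j)).natAbs.primeFactors.filter (fun q => ¬ q ∣ ∏ j, S1 z y f j)) ⊆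
      ((Icc 1 z) ∪ univ.biUnion (fun j => (f j).natAbs.primeFactors.filter (y < ·))) ∪
        univ.biUnion (fun j => (S2 z y f j).primeFactors) := by
    intro q hq
    rw [mem_filter] at hq
    have hp := Nat.prime_of_mem_primeFactors hq.1
    have hdv := Nat.dvd_of_mem_primeFactors hq.1
    rw [mem_union, mem_union, mem_Icc]
    rcases Nat.lt_or_ge z q with h | h
    swap
    · exact Or.inl (Or.inl ⟨hp.one_lt.le, h⟩)
    · have hqi : Prime (q : ℤ) := Nat.prime_iff_prime_int.1 hp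
      have hdv2 : (q : ℤ) ∣ 2 * (a 0 * ∏ j, f j) * (a 1 * ∏ j, f j) * (a 2 * ∏ j, f j) :=
        Int.natCast_dvd.2 hdv
      have hk : ∃ k, (q : ℤ) ∣ a k * ∏ j, f j := by
        rcases hqi.dvd_or_dvd hdv2 with h1 | h1
        · rcases hqi.dvd_or_dvd h1 with h2 | h2
          · rcases hqi.dvd_or_dvd h2 with h3 | h3
            · exfalso
              have h4 : q ∣ 2 := by exact_mod_cast h3
              have h5 := Nat.le_of_dvd (by norm_num) h4
              omega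
            · exact ⟨0, h3⟩
          · exact ⟨1, h2⟩
        · exact ⟨2, h1⟩
      obtain ⟨k, hk⟩ := hk
      rcases hqi.dvd_or_dvd hk with h1 | h1
      · exfalso
        have h2 := Nat.le_of_dvd (Int.natAbs_pos.2 (ha0 k)) (Int.natCast_dvd.1 h1)
        have h3 := ha k
        omega
      · obtain ⟨l, _, hl⟩ := (hqi.dvd_finsetProd_iff _).1 h1
        rcases Nat.lt_or_ge y q with hyq | hyq
        · left; right
          rw [mem_biUnion]
          refine ⟨l, mem_univ _, ?_⟩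
          rw [mem_filter, Nat.mem_primeFactors]
          exact ⟨⟨hp, Int.natCast_dvd.1 hl, Int.natAbs_ne_zero.2 (hf.1 l)⟩, hyq⟩
        · right
          have hPS : q ∈ PS z y := mem_PS.2 ⟨⟨h, hyq⟩, hp⟩
          rw [mem_biUnion]
          refine ⟨l, mem_univ _, ?_⟩
          have hsq : (q : ℤ) ^ 2 ∣ f l := by
            by_contra hcon
            apply hq.2
            exact dvd_trans ((mem_S1 hp).2 ⟨hPS, hl, hcon⟩) (dvd_prod_of_mem _ (mem_univ l))
          rw [Nat.mem_primeFactors]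
          exact ⟨hp, (mem_S2 hp).2 ⟨hPS, hsq⟩, S2_ne l⟩
  have hone : ∀ j, ((f j).natAbs.primeFactors.filter (y < ·)).card ≤ B * K := by
    intro j
    set S := (f j).natAbs.primeFactors.filter (y < ·) with hS
    have h1 : (y + 1) ^ S.card ≤ ∏ q ∈ S, q :=
      Finset.pow_card_le_prod _ _ _ (fun q hq => by
        have := (mem_filter.1 hq).2
        omega)
    have h2 : ∏ q ∈ S, q ∣ (f j).natAbs :=
      (prod_dvd_prod_of_subset _ _ _ (filter_subset _ _)).trans (Nat.prod_primeFactors_dvd _)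
    have h3 : ∏ q ∈ S, q ≤ (f j).natAbs :=
      Nat.le_of_dvd (Nat.pos_of_ne_zero (Int.natAbs_ne_zero.2 (hf.1 j))) h2
    have h4 : (y + 1) ^ S.card ≤ (y + 1) ^ (B * K) := by
      calc (y + 1) ^ S.card ≤ X ^ B := h1.trans (h3.trans (hb j))
        _ ≤ ((y + 1) ^ K) ^ B := Nat.pow_le_pow_left hK.le B
        _ = (y + 1) ^ (B * K) := by rw [← pow_mul, mul_comm]
    exact (Nat.pow_le_pow_iff_right (by omega)).1 h4
  refine (card_le_card hsub).trans ((card_union_le _ _).trans (add_le_add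
    ((card_union_le _ _).trans (add_le_add ?_ ?_)) card_biUnion_le))
  · simp
  · refine card_biUnion_le.trans ?_
    refine (sum_le_sum fun j _ => hone j).trans ?_
    rw [sum_const, card_univ, smul_eq_mul]

/-- a square factor does not change the symbol -/
lemma symb_mul_self {p : ℕ} (hp : p.Prime) {c q : ℤ} (hc : ¬ (p : ℤ) ∣ c) :
    jacobiSym (c * (c * q)) p = jacobiSym q p := by
  have hpi : Prime (p : ℤ) := Nat.prime_iff_prime_int.1 hp
  have e : c * (c * q) = c ^ 2 * q := by ring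
  rw [e, jacobiSym.mul_left]
  have h2 : jacobiSym (c ^ 2) p = 1 := by
    apply jacobiSym.sq_one'
    rw [← Int.isCoprime_iff_gcd_eq_one]
    exact IsCoprime.symm ((Prime.coprime_iff_not_dvd hpi).2 hc)
  rw [h2, one_mul]

/-- the local hypotheses hold -/
lemma locH {a : Fin 3 → ℤ} {p : ℕ} (hp : p.Prime) (hpa : ∀ k, ¬ (p : ℤ) ∣ a k)
    (haa : a 0 - a 1 = a 2) {D : ℤ} (hD : (p : ℤ) ∣ D) (hD2 : ¬ (p : ℤ) ^ 2 ∣ D) {neg : Bool}
    (hneg : neg = true ↔ jacobiSym (D / p) p = -1) :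
    LocH 3 a neg p (a 0 * D) (a 1 * D) := by
  have hpi : Prime (p : ℤ) := Nat.prime_iff_prime_int.1 hp
  obtain ⟨q, hq⟩ := hD
  have hq1 : D / p = q := by rw [hq, Int.mul_ediv_cancel_left _ hpi.ne_zero]
  have hqn : ¬ (p : ℤ) ∣ q := by
    intro h
    apply hD2
    rw [hq, pow_two]
    exact mul_dvd_mul_left _ h
  rw [hq1] at hneg
  have hd : ∀ k, (p : ℤ) ∣ a k * D := fun k => ⟨a k * q, by rw [hq]; ring⟩
  have hd2 : ∀ k, ¬ (p : ℤ) ^ 2 ∣ a k * D := by
    intro k h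
    rw [hq] at h
    have h1 : (p : ℤ) * p ∣ p * (a k * q) := by
      rw [← pow_two]
      convert h using 1
      ring
    have h2 := Int.dvd_of_mul_dvd_mul_left hpi.ne_zero h1
    rcases hpi.dvd_or_dvd h2 with h3 | h3
    · exact hpa k h3
    · exact hqn h3
  have hdiv : ∀ k, a k * D / p = a k * q := by
    intro k
    have : a k * D = p * (a k * q) := by rw [hq]; ring
    rw [this, Int.mul_ediv_cancel_left _ hpi.ne_zero]
  have hJ : jacobiSym q p = if neg = true then -1 else 1 := by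
    split_ifs with h5
    · exact hneg.1 h5
    · have h6 : jacobiSym q p ≠ -1 := fun h7 => h5 (hneg.2 h7)
      have h7 : q.gcd p = 1 := by
        rw [← Int.isCoprime_iff_gcd_eq_one]
        exact IsCoprime.symm ((Prime.coprime_iff_not_dvd hpi).2 hqn)
      rcases jacobiSym.eq_one_or_neg_one h7 with h8 | h8
      · exact h8
      · exact absurd h8 h6
  have hs : ∀ k, jacobiSym (a k * (a k * D / p)) p = if neg = true then -1 else 1 := by
    intro k
    rw [hdiv, symb_mul_self hp (hpa k), hJ]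
  have hsub : a 0 * D - a 1 * D = a 2 * D := by rw [← haa]; ring
  unfold LocH
  rw [if_neg (by decide), if_neg (by decide), if_neg (by decide), hsub]
  exact ⟨hd 0, hd 1, hd2 0, hd2 1, hd2 2, hs 0, hs 1, hs 2⟩

theorem ranke : RANKE := by
  intro J _ _ a z y X k B f hz hf ha0 ha haa hb hX hy hk
  have hDne : ∏ j, f j ≠ 0 := prod_ne_zero_iff.2 fun l _ => hf.1 l
  have hFne : ∀ k, a k * ∏ j, f j ≠ 0 := fun k => mul_ne_zero (ha0 k) hDne
  have hsub : a 0 * ∏ j, f j - a 1 * ∏ j, f j = a 2 * ∏ j, f j := by rw [← haa]; ring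
  have hmem : S1 z y f ∈ Tup J z y := S1_Tup hf
  have hmd : ∏ j, S1 z y f j ∣ PP z y := Tup_prod_dvd hmem
  have hPSof : ∀ p : ℕ, p.Prime → p ∣ ∏ j, S1 z y f j → p ∈ PS z y := fun p hp h =>
    (prime_dvd_PP hp).1 (h.trans hmd)
  have hna : ∀ p : ℕ, p.Prime → z < p → ∀ k, ¬ (p : ℤ) ∣ a k := by
    intro p hp h1 k hd
    have h2 := Nat.le_of_dvd (Int.natAbs_pos.2 (ha0 k)) (Int.natCast_dvd.1 hd)
    have h3 := ha k
    omega
  have hnκ : ∀ p : ℕ, p.Prime → p ∣ ∏ j, S1 z y f j → ∀ k, ¬ (p : ℤ) ∣ a k := fun p hp h =>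
    hna p hp (mem_PS.1 (hPSof p hp h)).1.1
  have hodd : ∀ p : ℕ, p.Prime → p ∣ ∏ j, S1 z y f j → p ≠ 2 := by
    intro p hp h
    have h1 := (mem_PS.1 (hPSof p hp h)).1.1
    omega
  have hd := Pool.Agent.W214.RK2.desc4 (∏ j, S1 z y f j)
    (LLs (c3 J) (fun _ => a) (S1 z y f) (ng (∏ j, S1 z y f j) (∏ j, f j)))
    (a 0 * ∏ j, f j) (a 1 * ∏ j, f j) (hFne 0) (hFne 1)
    (fun h => hFne 2 (by rw [← hsub, h, sub_self]))
    (by
      rw [← Nat.not_even_iff_odd, even_iff_two_dvd]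
      intro h
      exact hodd 2 Nat.prime_two h rfl)
    ((PP_squarefree z y).squarefree_of_dvd hmd)
    (fun p hp hpd => ⟨fun j hj =>
        (Pool.Agent.W342.RK2.xcl _ _ _ p hp (hodd p hp hpd) (hnκ p hp hpd)).1,
      fun a1 b1 c1 d1 a2 b2 c2 d2 e1 e2 j hj =>
        (Pool.Agent.W342.RK2.xcl _ _ _ p hp (hodd p hp hpd) (hnκ p hp hpd)).2
          a1 b1 c1 d1 a2 b2 c2 d2 (e1 j hj) (e2 j hj)⟩)
    (fun p hp hpd x x' hx' hcurve e1 e2 he1 he2 hsq1 hsq2 j hj => by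
      have hpp : p.Prime := Fact.out
      obtain ⟨hpS, hpf, hpf2⟩ := (mem_S1 hpp).1 hj
      have hzp := (mem_PS.1 hpS).1.1
      have hsplit : ∏ l, f l = f j * ∏ l ∈ univ.erase j, f l :=
        (mul_prod_erase univ f (mem_univ j)).symm
      have hE : ¬ (p : ℤ) ∣ ∏ l ∈ univ.erase j, f l := by
        intro h
        obtain ⟨l, hl, hpl⟩ := ((Nat.prime_iff_prime_int.1 hpp).dvd_finsetProd_iff _).1 h
        exact hf.2 p hpp hzp l j (ne_of_mem_erase hl) ⟨hpl, hpf⟩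
      have hD : (p : ℤ) ∣ ∏ l, f l := by rw [hsplit]; exact hpf.mul_right _
      have hD2 : ¬ (p : ℤ) ^ 2 ∣ ∏ l, f l := by
        rw [hsplit]
        intro h
        refine hpf2 (IsCoprime.dvd_of_dvd_mul_right ?_ h)
        exact IsCoprime.pow_left
          ((Prime.coprime_iff_not_dvd (Nat.prime_iff_prime_int.1 hpp)).2 hE)
      refine Pool.Agent.W342.RK2.locl (c3 J j) a _ p _ _ (hodd p hpp hpd) (hnκ p hpp hpd)
        (locH hpp (hna p hpp hzp) haa hD hD2 ?_) x x' hx' hcurve e1 e2 he1 he2 hsq1 hsq2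
      rw [decide_eq_true_eq]
      unfold ng
      rw [mem_filter, Nat.mem_primeFactors]
      constructor
      · exact fun h => h.2
      · intro h5
        exact ⟨⟨hpp, hpd, prod_ne_zero_iff.2 fun l _ => (Tup_pos hmem l).ne'⟩, h5⟩)
  rw [hsub] at hd
  refine hd.trans (Nat.mul_le_mul_right _ ?_)
  have hc := bad (y := y) hz hf ha0 ha hX hy hb hk
  calc 4 ^ (((2 * (a 0 * ∏ j, f j) * (a 1 * ∏ j, f j) *
        (a 2 * ∏ j, f j)).natAbs.primeFactors.filter (fun q => ¬ q ∣ ∏ j, S1 z y f j)).card + 2)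
      ≤ 4 ^ ((z + 2) + (Fintype.card J * (B * k)) + ∑ j, (S2 z y f j).primeFactors.card) :=
        Nat.pow_le_pow_right (by norm_num) (by omega)
    _ = _ := by
        rw [pow_add, pow_add]
        congr 2
        rw [← pow_mul, ← pow_mul]
        congr 1
        ring

end Pool.Agent.W991.QF
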